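import Pool.Agent.MP_b4c6b8_lc.H22.All

/-! Rings of integers of CM type: real units, units close to one, divisibility. -/

namespace Pool.Agent.MP_b4c6b8_lc.H22C

open H22 NumberField

theorem fd1 (z : Qb) : NumberField (IntermediateField.adjoin ℚ ({z} : Set Qb)) :=
  have := IntermediateField.adjoin.finiteDimensional
    (Algebra.IsAlgebraic.isAlgebraic (R := ℚ) z).isIntegral
  NumberField.mk

theorem small {z : Qb} (hz : IsIntegral ℤ z) (h : ∀ σ : Qb →+* ℂ, ‖σ z‖ < 1) : z = 0 := by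
  by_contra h0
  have := fd1 z
  have h1 := PH.sum_log (IntermediateField.mem_adjoin_simple_self ℚ z) h0
  have h2 : ∑ τ : IntermediateField.adjoin ℚ ({z} : Set Qb) →+* ℂ, Real.log ‖PH.L τ z‖ < 0 :=
    Finset.sum_neg (fun τ _ => Real.log_neg (norm_pos_iff.2 ((map_ne_zero _).2 h0)) (h _))
      Finset.univ_nonempty
  have := mul_nonneg (Nat.cast_nonneg (α := ℝ)
    (Fintype.card (IntermediateField.adjoin ℚ ({z} : Set Qb) →+* ℂ))) (PH.nu_nonneg hz)
  linarith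

theorem bdd (z : Qb) : ∃ B : ℕ, ∀ σ : Qb →+* ℂ, ‖σ z‖ < B := by
  have := fd1 z
  obtain ⟨B, hB⟩ := (Set.finite_range fun τ : IntermediateField.adjoin ℚ ({z} : Set Qb) →+* ℂ =>
    ‖τ ⟨z, IntermediateField.mem_adjoin_simple_self ℚ z⟩‖).bddAbove
  obtain ⟨n, hn⟩ := exists_nat_gt B
  exact ⟨n, fun σ => (hB ⟨σ.comp (algebraMap _ Qb), rfl⟩).trans_lt hn⟩

theorem exs : Nonempty (Qb →+* ℂ) :=
  ⟨(IsAlgClosed.lift : Qb →ₐ[ℚ] ℂ).toRingHom⟩

/-- complex conjugates under every embedding -/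
def Cj (x y : Qb) : Prop := ∀ σ : Qb →+* ℂ, σ y = starRingEnd ℂ (σ x)

theorem Cj.int {x y : Qb} (h : Cj x y) (hx : IsIntegral ℤ x) : IsIntegral ℤ y := by
  obtain ⟨σ⟩ := exs
  have h1 : IsIntegral ℤ (σ y) := by
    rw [h σ]
    exact hx.map ((starRingEnd ℂ).comp σ).toIntAlgHom
  exact (isIntegral_algHom_iff σ.toIntAlgHom σ.injective).1 h1

theorem cj_of {x a b i : Qb} (hi : i ^ 2 = -1) (hx : x = a + b * i)
    (h : ∀ σ : Qb →+* ℂ, (σ a).im = 0 ∧ (σ b).im = 0) : Cj x (a - b * i) := by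
  intro σ
  have h1 : σ i ^ 2 = Complex.I ^ 2 := by rw [← map_pow, hi, Complex.I_sq]; simp
  have h2 : starRingEnd ℂ (σ i) = -σ i := by
    rcases sq_eq_sq_iff_eq_or_eq_neg.1 h1 with e | e <;> simp [e]
  rw [hx, map_sub, map_add, map_add, map_mul, map_mul, h2,
    Complex.conj_eq_iff_im.2 (h σ).1, Complex.conj_eq_iff_im.2 (h σ).2]
  ring

theorem real_unit {e f y : Qb} (hf : IsIntegral ℤ f) (hy : IsIntegral ℤ y) (h1 : e * f = 1)
    (h2 : e = 1 + 3 * y) (cf : ∃ f', Cj f f') (cy : ∃ y', Cj y y') (σ : Qb →+* ℂ) :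
    (σ e).im = 0 := by
  obtain ⟨f', cf⟩ := cf
  obtain ⟨y', cy⟩ := cy
  have a1 : ∀ σ : Qb →+* ℂ, σ (1 + 3 * y') = starRingEnd ℂ (σ e) := fun σ => by
    rw [h2]
    simp only [map_add, map_mul, map_one, map_ofNat, cy σ]
  have a2 : (1 + 3 * y') * f' = 1 := σ.injective (by
    rw [map_mul, a1, cf σ, ← map_mul, ← map_mul, h1, map_one, map_one])
  have a3 : (y - y') * f' = 0 := small ((hy.sub (cy.int hy)).mul (cf.int hf)) fun σ => by
    have b1 : 3 * σ ((y - y') * f') = σ e * σ f' - 1 := by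
      rw [← map_mul, ← map_one σ, ← map_sub, ← map_ofNat σ 3, ← map_mul]
      congr 1
      rw [h2]
      linear_combination -a2
    have b2 : ‖σ e * σ f'‖ = 1 := by
      rw [cf σ, norm_mul, Complex.norm_conj, ← norm_mul, ← map_mul, h1, map_one, norm_one]
    have b3 := norm_sub_le (σ e * σ f') 1
    rw [← b1, b2, norm_mul, norm_one, Complex.norm_ofNat] at b3
    linarith
  have a4 : y = y' := by
    refine sub_eq_zero.1 ((mul_eq_zero.1 a3).resolve_right fun h => ?_)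
    simp [h] at a2
  rw [← Complex.conj_eq_iff_im, ← a1, ← a4, h2]

theorem real_of {x : Qb} (cx : ∃ x', Cj x x') (h : ∀ m : ℕ, m ≠ 0 → ∃ e d t y : Qb,
    IsIntegral ℤ t ∧ IsIntegral ℤ y ∧ (∃ y', Cj y y') ∧ e ≠ 1 ∧ e = 1 + m * t ∧
    (∀ σ : Qb →+* ℂ, (σ e).im = 0) ∧ (∀ σ : Qb →+* ℂ, (σ d).im = 0) ∧
    d - 1 - x * (e - 1) = (e - 1) ^ 2 * y) (σ : Qb →+* ℂ) : (σ x).im = 0 := by
  obtain ⟨x', cx⟩ := cx
  obtain ⟨B, hB⟩ := bdd (x' - x)
  obtain ⟨e, d, t, y, ht, hy, ⟨y', cy⟩, h1, h2, h3, h4, h5⟩ := h (B + 1) B.succ_ne_zero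
  have a1 : d - 1 - x' * (e - 1) = (e - 1) ^ 2 * y' := σ.injective (by
    have := congrArg (fun u => starRingEnd ℂ (σ u)) h5
    simp only [map_sub, map_mul, map_pow, map_one, Complex.conj_eq_iff_im.2 (h3 σ),
      Complex.conj_eq_iff_im.2 (h4 σ)] at this ⊢
    rw [cx σ, cy σ, this])
  have a2 : x' - x = ((B + 1 : ℕ) : Qb) * (t * (y - y')) := by
    refine mul_left_cancel₀ (sub_ne_zero.2 h1) ?_
    have : ((B + 1 : ℕ) : Qb) * t = e - 1 := by rw [h2]; ring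
    rw [← mul_assoc ((B + 1 : ℕ) : Qb), this]
    linear_combination h5 - a1
  have a3 : t * (y - y') = 0 := small (ht.mul (hy.sub (cy.int hy))) fun σ => by
    have := hB σ
    rw [a2, map_mul, norm_mul, map_natCast, Complex.norm_natCast] at this
    push_cast at this
    nlinarith [norm_nonneg (σ (t * (y - y'))), Nat.cast_nonneg (α := ℝ) B]
  rw [a3, mul_zero, sub_eq_zero] at a2
  rw [← Complex.conj_eq_iff_im, ← cx σ, a2]

theorem den {O : Subring Qb} (hO : ∀ x ∈ O, IsIntegral ℤ x) {x : Qb}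
    (hx : x ∈ IntermediateField.adjoin ℚ (O : Set Qb)) : ∃ n : ℤ, n ≠ 0 ∧ n * x ∈ O := by
  obtain ⟨z, h1, h2, h3⟩ := frac hx
  have : Algebra.IsIntegral ℤ O := ⟨fun y =>
    (isIntegral_algHom_iff O.subtype.toIntAlgHom Subtype.val_injective).1 (hO y y.2)⟩
  have h4 := Ideal.comap_ne_bot_of_integral_mem (R := ℤ) (I := Ideal.span {(⟨z, h1⟩ : O)})
    (fun e => h2 (congrArg Subtype.val e)) (Ideal.mem_span_singleton_self _)
    (Algebra.IsIntegral.isIntegral _)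
  obtain ⟨n, n1, n2⟩ := (Submodule.ne_bot_iff _).1 h4
  obtain ⟨t, ht⟩ := Ideal.mem_span_singleton'.1 (Ideal.mem_comap.1 n1)
  refine ⟨n, n2, ?_⟩
  have : (n : Qb) = t * z := by simpa using (congrArg Subtype.val ht).symm
  rw [this, mul_assoc]
  exact mul_mem t.2 h3

theorem cond {O : Subring Qb} (hO : ∀ x ∈ O, IsIntegral ℤ x) (F : IntermediateField ℚ Qb)
    [NumberField F] (hF : F ≤ IntermediateField.adjoin ℚ (O : Set Qb)) :
    ∃ n : ℤ, n ≠ 0 ∧ ∀ y : 𝓞 F, n * ((y : F) : Qb) ∈ O := by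
  obtain ⟨s, hs⟩ := Module.Finite.fg_top (R := ℤ) (M := 𝓞 F)
  choose n n1 n2 using fun y : 𝓞 F => den hO (hF (y : F).2)
  refine ⟨∏ y ∈ s, n y, Finset.prod_ne_zero_iff.2 fun y _ => n1 y, fun y => ?_⟩
  have hy : y ∈ Submodule.span ℤ (s : Set (𝓞 F)) := hs ▸ Submodule.mem_top
  induction hy using Submodule.span_induction with
  | mem y hy =>
    obtain ⟨c, hc⟩ := Finset.dvd_prod_of_mem n hy
    rw [hc, Int.cast_mul, mul_right_comm]
    exact mul_mem (n2 y) (intCast_mem O c)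
  | zero => simp
  | add y z _ _ h1 h2 => simpa [mul_add] using add_mem h1 h2
  | smul a y _ h1 =>
    have := mul_mem (intCast_mem O a) h1
    rw [mul_left_comm] at this
    simpa [zsmul_eq_mul] using this

theorem exunit (F : Type) [Field F] [NumberField F] (h : 3 ≤ Module.finrank ℚ F) :
    ∃ u : (𝓞 F)ˣ, ∀ n : ℕ, n ≠ 0 → u ^ n ≠ 1 := by
  have h1 := InfinitePlace.card_add_two_mul_card_eq_rank F
  have h2 := InfinitePlace.card_eq_nrRealPlaces_add_nrComplexPlaces F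
  have h3 : 0 < Units.rank F := by
    unfold Units.rank
    omega
  refine ⟨Units.fundSystem F ⟨0, h3⟩, fun n hn e => ?_⟩
  have h4 : Units.fundSystem F ⟨0, h3⟩ ∈ Units.torsion F :=
    (CommGroup.mem_torsion _).2 (isOfFinOrder_iff_pow_eq_one.2 ⟨n, Nat.pos_of_ne_zero hn, e⟩)
  classical
  have h5 := Units.logEmbedding_fundSystem F ⟨0, h3⟩
  rw [Units.dirichletUnitTheorem.logEmbedding_eq_zero_iff.2 h4] at h5
  exact (Units.basisUnitLattice F).ne_zero _ (Subtype.ext h5.symm)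

theorem unit_pow (F : Type) [Field F] [NumberField F] (u : (𝓞 F)ˣ) {m : ℤ} (hm : m ≠ 0) :
    ∃ n : ℕ, n ≠ 0 ∧ ∃ t : 𝓞 F, (u ^ n).val = 1 + (m : 𝓞 F) * t := by
  have h0 : Ideal.span {(m : 𝓞 F)} ≠ ⊥ := by simpa using hm
  have := Ideal.finiteQuotientOfFreeOfNeBot _ h0
  let v := Units.map (Ideal.Quotient.mk (Ideal.span {(m : 𝓞 F)})).toMonoidHom u
  refine ⟨orderOf v, (orderOf_pos v).ne', ?_⟩
  have h1 : Ideal.Quotient.mk (Ideal.span {(m : 𝓞 F)}) (u ^ orderOf v : (𝓞 F)ˣ) =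
      Ideal.Quotient.mk _ 1 := by
    have := congrArg Units.val (pow_orderOf_eq_one v)
    rw [Units.val_pow_eq_pow_val] at this
    rw [Units.val_pow_eq_pow_val, map_pow, map_one]
    exact this
  obtain ⟨t, ht⟩ := Ideal.mem_span_singleton'.1 (Ideal.Quotient.eq.1 h1)
  exact ⟨t, by linear_combination -ht⟩

theorem near_one {O : Subring Qb} (hO : ∀ x ∈ O, IsIntegral ℤ x)
    (hinf : ¬ FiniteDimensional ℚ (IntermediateField.adjoin ℚ (O : Set Qb))) {m : ℕ} (hm : m ≠ 0) :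
    ∃ e f t : O, e * f = 1 ∧ e ≠ 1 ∧ e = 1 + m * t := by
  obtain ⟨F, f1, f2, -, f3⟩ := SH.big_sub _ hinf ∅ (by simp) 3
  have : NumberField F := NumberField.mk
  obtain ⟨N, n1, n2⟩ := cond hO F f1
  obtain ⟨u, hu⟩ := exunit F f3
  obtain ⟨n, h1, t, ht⟩ := unit_pow F u (mul_ne_zero (Int.natCast_ne_zero.2 hm) n1)
  let φ : 𝓞 F →+* Qb := (algebraMap F Qb).comp (algebraMap (𝓞 F) F)
  have hφ : Function.Injective φ := (algebraMap F Qb).injective.comp RingOfIntegers.coe_injective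
  have n3 : ∀ y, N * φ y ∈ O := n2
  have a1 : φ (u ^ n : (𝓞 F)ˣ) = 1 + m * (N * φ t) := by
    rw [ht]
    simp [mul_assoc]
  have a2 : φ (u ^ n : (𝓞 F)ˣ) * φ (u ^ n)⁻¹.val = 1 := by
    rw [← map_mul, Units.mul_inv, map_one]
  have a3 : φ (u ^ n)⁻¹.val = 1 - m * (N * φ (t * (u ^ n)⁻¹.val)) := by
    rw [a1] at a2
    rw [map_mul]
    linear_combination a2
  refine ⟨⟨φ (u ^ n : (𝓞 F)ˣ), a1 ▸ add_mem (one_mem O) (mul_mem (natCast_mem O m) (n3 _))⟩,
    ⟨φ (u ^ n)⁻¹.val, a3 ▸ sub_mem (one_mem O) (mul_mem (natCast_mem O m) (n3 _))⟩,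
    ⟨_, n3 t⟩, Subtype.ext a2, fun e => hu n h1 (Units.ext (hφ ?_)), Subtype.ext ?_⟩
  · simpa using congrArg Subtype.val e
  · simpa using a1

theorem dv {O : Subring Qb} (hO : ∀ x ∈ O, IsIntegral ℤ x) (U : Finset O) (T : Set O) :
    ∃ p q s : O, ∀ z ∈ U, (p + q * z ∣ s ↔ z ∈ T) := by
  classical
  have : Infinite O := Infinite.of_injective _ (Nat.cast_injective (R := O))
  obtain ⟨c, hc⟩ := Infinite.exists_notMem_finset U
  let g : O := ∏ z ∈ U.offDiag, (z.1 - z.2)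
  have g0 : g ≠ 0 := Finset.prod_ne_zero_iff.2 fun z hz =>
    sub_ne_zero.2 (Finset.mem_offDiag.1 hz).2.2
  choose B hB using fun z : O => bdd (((z - c) * g : O) : Qb)⁻¹
  let M : ℕ := 2 * (∑ z ∈ U, B z) + 2
  let e : O → O := fun z => 1 + (z - c) * (M * g)
  have h1 : ∀ z ∈ U, ¬ IsUnit (e z) := fun z hz h => by
    obtain ⟨w, hw⟩ := h.exists_right_inv
    have a0 : (((z - c) * g : O) : Qb) ≠ 0 := fun h =>
      mul_ne_zero (sub_ne_zero.2 fun e' : z = c => hc (e' ▸ hz)) g0 (Subtype.ext h)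
    have : (w : Qb) = 0 := small (hO w w.2) fun σ => by
      have a1 := hB z σ
      have a2 : (B z : ℝ) ≤ ∑ z ∈ U, B z := by
        exact_mod_cast Finset.single_le_sum (fun _ _ => Nat.zero_le _) hz
      have a3 : σ w * (M * σ ((z - c) * g : O)) = 1 - σ w := by
        have := congrArg (fun t : O => σ t) hw
        simp only [e] at this
        push_cast at this ⊢
        simp only [map_mul, map_add, map_one, map_natCast] at this ⊢
        linear_combination this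
      have a4 := norm_sub_le 1 (σ w)
      have a5 : 0 < ‖σ ((z - c) * g : O)‖ := norm_pos_iff.2 ((map_ne_zero σ).2 a0)
      rw [map_inv₀, norm_inv, inv_lt_iff_one_lt_mul₀ a5] at a1
      rw [← a3, norm_mul, norm_mul, Complex.norm_natCast, norm_one] at a4
      have a6 : (M : ℝ) = 2 * (∑ z ∈ U, B z : ℕ) + 2 := by simp [M]
      have a7 : 2 < M * ‖σ ((z - c) * g : O)‖ := by nlinarith
      nlinarith [norm_nonneg (σ w)]
    rw [show w = 0 from Subtype.ext this, mul_zero] at hw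
    exact zero_ne_one hw
  have h2 : ∀ z ∈ U, ∀ z' ∈ U, z ≠ z' → IsCoprime (e z) (e z') := fun z hz z' hz' hne => by
    have a1 : IsCoprime (e z) (M * g) := ⟨1, -(z - c), by simp only [e]; ring⟩
    have a2 : z - z' ∣ M * g := (Finset.dvd_prod_of_mem (fun z : O × O => z.1 - z.2)
      (a := (z, z')) (Finset.mem_offDiag.2 ⟨hz, hz', hne⟩)).mul_left _
    obtain ⟨a, b, hab⟩ := (a1.of_isCoprime_of_dvd_right a2).mul_right a1
    exact ⟨a + b, -b, by simp only [e] at hab ⊢; linear_combination hab⟩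
  refine ⟨1 - c * (M * g), M * g, ∏ z ∈ U.filter (· ∈ T), e z, fun z hz => ?_⟩
  rw [show 1 - c * (M * g) + M * g * z = e z by simp only [e]; ring]
  refine ⟨fun h => by_contra fun hT => h1 z hz (IsCoprime.isUnit_of_dvd
    (IsCoprime.prod_right fun z' hz' => ?_) h), fun h =>
      Finset.dvd_prod_of_mem e (Finset.mem_filter.2 ⟨hz, h⟩)⟩
  obtain ⟨a1, a2⟩ := Finset.mem_filter.1 hz'
  exact h2 z hz z' a1 fun e' => hT (e' ▸ a2)

end Pool.Agent.MP_b4c6b8_lc.H22C
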