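import Pool.Agent.MP_b4c6b8_lc.H22C.Alg

/-! The ring cut out by units is totally real; boxes and divisibility give the criterion. -/

namespace Pool.Agent.MP_b4c6b8_lc.H22C

open H22 FirstOrder FirstOrder.Language FirstOrder.Ring H74 Turing.ToPartrec

theorem crit2 {β : Type} [Finite β] (Θ : ∀ (M : Type) [St M], (β → M) → M → Prop)
    (Δ : ∀ (M : Type) [St M], (β → M) → M → M → M → M → Prop)
    (hΘ : ∀ (γ : Type) (e : β → γ) (x : γ), UD γ fun _ M _ v => Θ M (fun b => v (e b)) (v x))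
    (hΔ : ∀ (γ : Type) (e : β → γ) (w x y z : γ),
      UD γ fun _ M _ v => Δ M (fun b => v (e b)) (v w) (v x) (v y) (v z))
    (R : Type) [St R] (hnum : Function.Injective (num R))
    (H : ∀ N : ℕ, ∃ A : Set R, A.Finite ∧ N ≤ A.ncard ∧ ∀ V : Set R, V.Finite →
      V ⊆ A ∪ Set.range (num R) →
      ∀ T : R → R → R → R → Prop, ∃ p : β → R, (∀ x, Θ R p x ↔ x ∈ A) ∧
        ∀ w ∈ V, ∀ x ∈ V, ∀ y ∈ V, ∀ z ∈ V, (Δ R p w x y z ↔ T w x y z))
    (Φ : Language.ring.Theory) (hΦ : R ⊨ Φ) :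
    ¬ ComputablePred fun k : ℕ => ∃ σ : Language.ring.Sentence, code σ = k ∧ Φ ⊨ᵇ σ := by
  intro hcomp
  obtain ⟨c, hc⟩ := exists_univ
  let F : ℕ → ∀ (M : Type) [St M], (β → M) → Tag → M → M → M → Prop := fun k M _ p =>
    Res (fun x => Θ M p x ∨ (∃ i < k, x = num M i) ∨ x = num M k)
      fun τ x y z => ∀ w, w = num M (tn τ) → Δ M p w x y z
  have hF : ∀ (γ : Type) (e : β → γ) (τ : Tag) (x y z : γ),
      UD γ fun k M _ v => F k M (fun b => v (e b)) τ (v x) (v y) (v z) := by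
    intro γ e τ x y z
    have hU : ∀ x : γ, UD γ fun k M _ v => Θ M (fun b => v (e b)) (v x) ∨
        (∃ i < k, v x = num M i) ∨ v x = num M k := fun x =>
      (hΘ γ e x).or ((UD.lt x).or (UD.eq (UT.var x) UT.numk))
    refine (hU x).and ((hU y).and ((hU z).and ?_))
    apply UD.all
    exact (UD.eq (UT.var none) (UT.num _)).imp (hΔ _ _ _ _ _ _)
  obtain ⟨σ, hp, hσ⟩ := (ud_out hF c).close
  obtain ⟨f, hf, e⟩ := ComputablePred.computable_iff.1 hcomp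
  have key : ∀ k, f (code (σ k)) = true ↔ Φ ⊨ᵇ σ k := fun k => by
    rw [← congrFun e]
    exact ⟨fun ⟨τ, h1, h2⟩ => code_injective h1 ▸ h2, fun h => ⟨_, rfl, h⟩⟩
  obtain ⟨k, ⟨h1, h2⟩ | ⟨h1, h2⟩⟩ := hc (fun k => f (code (σ k))) (hf.comp hp.to_comp)
  · have : Nonempty R := ⟨ze R⟩
    have h3 := (hσ k R).1 (((key k).1 h1).realize_sentence R)
    obtain ⟨N, hN⟩ := not_out hnum h2
    obtain ⟨A, a1, a2, a3⟩ := H N
    obtain ⟨G, hG⟩ := hN A a1 a2
    let L : List Tag := [Tag.Z, .S, .C, .H, .N] ++ tags c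
    obtain ⟨p, p1, p2⟩ := a3 (A ∪ num R '' Set.Iic k ∪ (fun τ => num R (tn τ)) '' {τ | τ ∈ L})
      ((a1.union ((Set.finite_Iic k).image _)).union ((List.finite_toSet L).image _))
      (by rintro _ ((h | ⟨i, -, rfl⟩) | ⟨τ, -, rfl⟩) <;> simp [*])
      fun w x y z => ∃ τ, w = num R (tn τ) ∧ G τ x y z
    refine hG _ (fun τ hτ => ?_) (h3 p)
    funext x y z
    simp only [F, Res, p1, forall_eq]
    have hV : ∀ x, x ∈ A ∨ (∃ i < k, x = num R i) ∨ x = num R k →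
        x ∈ A ∪ num R '' Set.Iic k ∪ (fun τ => num R (tn τ)) '' {τ | τ ∈ L} := by
      rintro x (h | ⟨i, hi, rfl⟩ | rfl)
      · exact Or.inl (Or.inl h)
      · exact Or.inl (Or.inr ⟨i, hi.le, rfl⟩)
      · exact Or.inl (Or.inr ⟨k, Set.self_mem_Iic, rfl⟩)
    refine propext (and_congr_right fun hx => and_congr_right fun hy => and_congr_right fun hz => ?_)
    rw [p2 _ (Or.inr ⟨τ, hτ, rfl⟩) _ (hV x hx) _ (hV y hy) _ (hV z hz)]
    exact ⟨fun ⟨τ', e, h⟩ => tn_inj (hnum e) ▸ h, fun h => ⟨τ, rfl, h⟩⟩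
  · have : Φ ⊨ᵇ σ k := Theory.models_sentence_iff.2 fun M =>
      (hσ k M).2 fun v => out_of_zero _ h2
    rw [(key k).2 this] at h1
    exact absurd h1 (by simp)

/-- units congruent to one modulo three -/
def XO (O : Subring Qb) (e : Qb) : Prop :=
  e ∈ O ∧ ∃ f, f ∈ O ∧ e * f = 1 ∧ ∃ y, y ∈ O ∧ e = 1 + 3 * y

theorem XO.mul {O : Subring Qb} {d e : Qb} (hd : XO O d) (he : XO O e) : XO O (d * e) := by
  obtain ⟨d1, f, f1, f2, y, y1, y2⟩ := hd
  obtain ⟨e1, g, g1, g2, z, z1, z2⟩ := he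
  refine ⟨mul_mem d1 e1, f * g, mul_mem f1 g1, by linear_combination (e * g) * f2 + g2,
    y + z * d, add_mem y1 (mul_mem z1 d1), by linear_combination y2 + d * z2⟩

theorem XO.inv {O : Subring Qb} {d : Qb} (hd : XO O d) : ∃ f, XO O f ∧ d * f = 1 := by
  obtain ⟨d1, f, f1, f2, y, y1, y2⟩ := hd
  exact ⟨f, ⟨f1, d, d1, by linear_combination f2, -(f * y), neg_mem (mul_mem f1 y1),
    by linear_combination f2 - f * y2⟩, f2⟩

/-- the ring of exponents -/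
def Ex (O : Subring Qb) : Subring Qb where
  carrier := {x | x ∈ O ∧ ∀ e, XO O e → ∃ d y, XO O d ∧ y ∈ O ∧
    d = 1 + x * (e - 1) + (e - 1) * (e - 1) * y}
  one_mem' := ⟨one_mem O, fun e he => ⟨e, 0, he, zero_mem O, by ring⟩⟩
  zero_mem' := ⟨zero_mem O, fun e _ => ⟨1, 0, ⟨one_mem O, 1, one_mem O, one_mul 1, 0, zero_mem O,
    by ring⟩, zero_mem O, by ring⟩⟩
  add_mem' := by
    rintro a b ⟨a1, a2⟩ ⟨b1, b2⟩
    refine ⟨add_mem a1 b1, fun e he => ?_⟩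
    obtain ⟨c, y, c1, y1, c2⟩ := a2 e he
    obtain ⟨d, z, d1, z1, d2⟩ := b2 e he
    have h := sub_mem he.1 (one_mem O)
    exact ⟨c * d, y + z + (a + (e - 1) * y) * (b + (e - 1) * z), c1.mul d1,
      add_mem (add_mem y1 z1) (mul_mem (add_mem a1 (mul_mem h y1)) (add_mem b1 (mul_mem h z1))),
      by rw [c2, d2]; ring⟩
  mul_mem' := by
    rintro a b ⟨a1, a2⟩ ⟨b1, b2⟩
    refine ⟨mul_mem a1 b1, fun e he => ?_⟩
    obtain ⟨c, y, c1, y1, c2⟩ := a2 e he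
    obtain ⟨d, z, d1, z1, d2⟩ := b2 c c1
    have h := add_mem a1 (mul_mem (sub_mem he.1 (one_mem O)) y1)
    exact ⟨d, b * y + (a + (e - 1) * y) * (a + (e - 1) * y) * z, d1,
      add_mem (mul_mem b1 y1) (mul_mem (mul_mem h h) z1), by rw [d2, c2]; ring⟩
  neg_mem' := by
    rintro a ⟨a1, a2⟩
    refine ⟨neg_mem a1, fun e he => ?_⟩
    obtain ⟨c, y, c1, y1, c2⟩ := a2 e he
    obtain ⟨f, f1, f2⟩ := c1.inv
    have h := add_mem a1 (mul_mem (sub_mem he.1 (one_mem O)) y1)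
    refine ⟨f, f * ((a + (e - 1) * y) * (a + (e - 1) * y)) - y, f1,
      sub_mem (mul_mem f1.1 (mul_mem h h)) y1, ?_⟩
    rw [c2] at f2
    linear_combination (1 - (e - 1) * (a + (e - 1) * y)) * f2

theorem ex_real {O : Subring Qb} (hO : ∀ x ∈ O, IsIntegral ℤ x) (hc : ∀ x ∈ O, ∃ y, Cj x y)
    (hinf : ¬ FiniteDimensional ℚ (IntermediateField.adjoin ℚ (O : Set Qb))) :
    ∀ x ∈ Ex O, ∀ σ : Qb →+* ℂ, (σ x).im = 0 := by
  have hX : ∀ e, XO O e → ∀ σ : Qb →+* ℂ, (σ e).im = 0 := by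
    rintro e ⟨-, f, f1, f2, y, y1, y2⟩
    exact real_unit (hO f f1) (hO y y1) f2 y2 (hc f f1) (hc y y1)
  rintro x ⟨x1, x2⟩
  refine real_of (hc x x1) fun m hm => ?_
  obtain ⟨e, f, t, h1, h2, h3⟩ := near_one hO hinf (mul_ne_zero three_ne_zero hm)
  have h4 : (e : Qb) = 1 + 3 * (m * t) := by
    rw [← mul_assoc, ← Nat.cast_ofNat (R := Qb) (n := 3), ← Nat.cast_mul]
    exact congrArg Subtype.val h3
  have he : XO O e := ⟨e.2, f, f.2, congrArg Subtype.val h1, m * t,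
    mul_mem (natCast_mem O m) t.2, h4⟩
  obtain ⟨d, y, d1, y1, d2⟩ := x2 e he
  exact ⟨e, d, 3 * t, y, hO _ (mul_mem (ofNat_mem O 3) t.2), hO y y1, hc y y1,
    fun h => h2 (Subtype.ext h), by rw [h4]; ring, hX e he, hX d d1, by rw [d2]; ring⟩

section Fml

variable {M : Type} [St M]

/-- the formula for `XO` -/
def Xu (I : M → Prop) (e : M) : Prop :=
  I e ∧ ∃ f, I f ∧ mu e f = on M ∧ ∃ y, I y ∧ e = ad (on M) (mu (num M 3) y)

/-- the formula for `Ex` -/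
def Mr (I : M → Prop) (x : M) : Prop :=
  I x ∧ ∀ e, Xu I e → ∃ d y, Xu I d ∧ I y ∧ d = ad (ad (on M) (mu x (ad e (ng (on M)))))
    (mu (mu (ad e (ng (on M))) (ad e (ng (on M)))) y)

/-- a sum of six squares up to a square factor, inside a definable set -/
def PosI (J : M → Prop) (y : M) : Prop :=
  ∃ w a b c d e f, J w ∧ J a ∧ J b ∧ J c ∧ J d ∧ J e ∧ J f ∧ ¬ w = ze M ∧ mu y (mu w w) =
    ad (ad (ad (ad (ad (mu a a) (mu b b)) (mu c c)) (mu d d)) (mu e e)) (mu f f)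

end Fml

/-- definable sets with parameters -/
def UP (β : Type) (I : ∀ (M : Type) [St M], (β → M) → M → Prop) : Prop :=
  ∀ (γ : Type) (e : β → γ) (x : γ), UD γ fun _ M _ v => I M (fun b => v (e b)) (v x)

section

variable {β : Type} {I : ∀ (M : Type) [St M], (β → M) → M → Prop}

theorem UP.xu (h : UP β I) : UP β fun M _ p => Xu (I M p) := fun γ e x => by
  simp only [Xu]
  repeat' first
    | exact h _ _ _ | apply UD.and | apply UD.ex | apply UD.eq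
    | exact UT.var _ | exact UT.on | exact UT.num _ | apply UT.ad | apply UT.mu

theorem UP.mr (h : UP β I) : UP β fun M _ p => Mr (I M p) := fun γ e x => by
  simp only [Mr]
  repeat' first
    | exact h _ _ _ | exact h.xu _ _ _ | apply UD.and | apply UD.ex | apply UD.eq | apply UD.all
    | apply UD.imp | exact UT.var _ | exact UT.on | apply UT.ad | apply UT.mu | apply UT.ng

theorem UP.pos (h : UP β I) {γ : Type} (e : β → γ) {f : ℕ → ∀ (M : Type) [St M], (γ → M) → M}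
    (hf : UT γ f) : UD γ fun k M _ v => PosI (I M fun b => v (e b)) (f k M v) := by
  simp only [PosI]
  iterate 7 apply UD.ex
  iterate 7 refine UD.and (h _ _ _) ?_
  refine (UD.eq (UT.var _) UT.ze).not.and (UD.eq (UT.mu (hf.lift _) ?_) ?_) <;>
    repeat' first | exact UT.var _ | apply UT.ad | apply UT.mu

end

/-- the definable ring -/
def It {n : ℕ} (θ : Language.ring.BoundedFormula Empty (n + 1)) (M : Type) [St M]
    (p : Fin n ⊕ Fin 8 → M) (x : M) : Prop :=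
  θ.Realize Empty.elim (Fin.snoc (fun i => p (.inl i)) x)

/-- boxes in the ring of exponents -/
def Th2 {n : ℕ} (θ : Language.ring.BoundedFormula Empty (n + 1)) (M : Type) [St M]
    (p : Fin n ⊕ Fin 8 → M) (x : M) : Prop :=
  Mr (It θ M p) x ∧ PosI (Mr (It θ M p)) (ad (mu (p (.inr 0)) x) (ng (p (.inr 1)))) ∧
    PosI (Mr (It θ M p)) (ad (p (.inr 2)) (ng (mu (p (.inr 0)) x)))

/-- the relation coded by divisibility -/
def De2 {n : ℕ} (θ : Language.ring.BoundedFormula Empty (n + 1)) (M : Type) [St M]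
    (p : Fin n ⊕ Fin 8 → M) (w x y z : M) : Prop :=
  ∃ u, It θ M p u ∧ p (.inr 7) =
    mu (ad (p (.inr 5)) (mu (p (.inr 6)) (four (p (.inr 3)) (p (.inr 4)) w x y z))) u

theorem up_it {n : ℕ} (θ : Language.ring.BoundedFormula Empty (n + 1)) : UP _ (It θ) := by
  intro γ e x
  refine UD.fml θ (s := fun i _ M _ v =>
    (Fin.snoc (fun i => v (e (.inl i))) (v x) : Fin (n + 1) → M) i) fun i => ?_
  refine Fin.lastCases ?_ (fun j => ?_) i
  · simp only [Fin.snoc_last]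
    exact UT.var _
  · simp only [Fin.snoc_castSucc]
    exact UT.var _

theorem up_th {n : ℕ} (θ : Language.ring.BoundedFormula Empty (n + 1)) : UP _ (Th2 θ) := by
  intro γ e x
  refine ((up_it θ).mr γ e x).and (((up_it θ).mr.pos e ?_).and ((up_it θ).mr.pos e ?_)) <;>
    repeat' first | exact UT.var _ | apply UT.ad | apply UT.mu | apply UT.ng

theorem ud_de2 {n : ℕ} (θ : Language.ring.BoundedFormula Empty (n + 1)) (γ : Type)
    (e : Fin n ⊕ Fin 8 → γ) (w x y z : γ) :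
    UD γ fun _ M _ v => De2 θ M (fun b => v (e b)) (v w) (v x) (v y) (v z) := by
  simp only [De2, four]
  apply UD.ex
  refine (up_it θ _ _ _).and (UD.eq ?_ ?_) <;>
    repeat' first | exact UT.var _ | apply UT.ad | apply UT.mu

section Sem

variable {R O : Subring Qb} [CompatibleRing R] {I : R → Prop}

theorem xu_iff (h : O ≤ R) (hI : ∀ x : R, I x ↔ (x : Qb) ∈ O) (e : R) : Xu I e ↔ XO O e := by
  simp only [Xu, XO, hI, mu_eq, ad_eq, on_eq, num_eq]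
  refine and_congr_right fun _ => ⟨?_, ?_⟩
  · rintro ⟨f, f1, f2, y, y1, y2⟩
    exact ⟨f, f1, congrArg Subtype.val f2, y, y1, congrArg Subtype.val y2⟩
  · rintro ⟨f, f1, f2, y, y1, y2⟩
    exact ⟨⟨f, h f1⟩, f1, Subtype.ext f2, ⟨y, h y1⟩, y1, Subtype.ext y2⟩

theorem mr_iff (h : O ≤ R) (hI : ∀ x : R, I x ↔ (x : Qb) ∈ O) (x : R) :
    Mr I x ↔ (x : Qb) ∈ Ex O := by
  simp only [Mr, xu_iff h hI, hI, mu_eq, ad_eq, on_eq, ng_eq, ← sub_eq_add_neg]
  refine and_congr_right fun _ => ⟨fun H e he => ?_, fun H e he => ?_⟩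
  · obtain ⟨d, y, d1, y1, d2⟩ := H ⟨e, h he.1⟩ he
    exact ⟨d, y, d1, y1, by simpa using congrArg Subtype.val d2⟩
  · obtain ⟨d, y, d1, y1, d2⟩ := H e he
    exact ⟨⟨d, h d1.1⟩, ⟨y, h y1⟩, d1, y1, Subtype.ext (by simpa using d2)⟩

theorem posI_iff (h : O ≤ R) (hI : ∀ x : R, I x ↔ (x : Qb) ∈ O) [CompatibleRing O] (y : O) :
    PosI I (Subring.inclusion h y) ↔ Pos y := by
  simp only [PosI, Pos, hI, mu_eq, ad_eq, ze_eq]
  constructor
  · rintro ⟨w, a, b, c, d, e, f, w1, a1, b1, c1, d1, e1, f1, h0, h1⟩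
    exact ⟨⟨w, w1⟩, ⟨a, a1⟩, ⟨b, b1⟩, ⟨c, c1⟩, ⟨d, d1⟩, ⟨e, e1⟩, ⟨f, f1⟩,
      fun e => h0 (Subtype.ext (congrArg Subtype.val e :)), Subtype.ext (congrArg Subtype.val h1 :)⟩
  · rintro ⟨w, a, b, c, d, e, f, h0, h1⟩
    exact ⟨⟨w, h w.2⟩, ⟨a, h a.2⟩, ⟨b, h b.2⟩, ⟨c, h c.2⟩, ⟨d, h d.2⟩, ⟨e, h e.2⟩, ⟨f, h f.2⟩,
      w.2, a.2, b.2, c.2, d.2, e.2, f.2,
      fun e => h0 (Subtype.ext (congrArg Subtype.val e :)), Subtype.ext (congrArg Subtype.val h1 :)⟩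

end Sem

theorem dv_code {O : Subring Qb} (hO : ∀ x ∈ O, IsIntegral ℤ x) {V : Set O} (hV : V.Finite)
    (T : O → O → O → O → Prop) : ∃ s t p q r : O, ∀ w ∈ V, ∀ x ∈ V, ∀ y ∈ V, ∀ z ∈ V,
      (p + q * (w + s * x + t * (y + s * z)) ∣ r ↔ T w x y z) := by
  obtain ⟨s, hs⟩ := exists_pair hV
  have h2 := hV.image2 (fun x y => x + s * y) hV
  obtain ⟨t, ht⟩ := exists_pair h2
  have h4 := h2.image2 (fun x y => x + t * y) h2
  obtain ⟨p, q, r, h⟩ := dv hO h4.toFinset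
    {u | ∃ w ∈ V, ∃ x ∈ V, ∃ y ∈ V, ∃ z ∈ V, T w x y z ∧ u = w + s * x + t * (y + s * z)}
  refine ⟨s, t, p, q, r, fun w hw x hx y hy z hz => (h _ (h4.mem_toFinset.2
    (Set.mem_image2_of_mem (Set.mem_image2_of_mem hw hx) (Set.mem_image2_of_mem hy hz)))).trans
      ⟨?_, fun hT => ⟨w, hw, x, hx, y, hy, z, hz, hT, rfl⟩⟩⟩
  rintro ⟨w', hw', x', hx', y', hy', z', hz', hT, e⟩
  obtain ⟨e1, e2⟩ := ht _ (Set.mem_image2_of_mem hw hx) _ (Set.mem_image2_of_mem hy hz) _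
    (Set.mem_image2_of_mem hw' hx') _ (Set.mem_image2_of_mem hy' hz') e
  obtain ⟨rfl, rfl⟩ := hs _ hw _ hx _ hw' _ hx' e1
  obtain ⟨rfl, rfl⟩ := hs _ hy _ hz _ hy' _ hz' e2
  exact hT

theorem main (R O : Subring Qb) [CompatibleRing R] (hOR : O ≤ R) (hO : ∀ x ∈ O, IsIntegral ℤ x)
    (hc : ∀ x ∈ O, ∃ y, Cj x y)
    (hinf : ¬ FiniteDimensional ℚ (IntermediateField.adjoin ℚ (O : Set Qb))) (n : ℕ)
    (θ : Language.ring.BoundedFormula Empty (n + 1)) (a : Fin n → R)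
    (hθ : ∀ x : R, θ.Realize Empty.elim (Fin.snoc a x) ↔ (x : Qb) ∈ O)
    (Φ : Language.ring.Theory) (hΦ : R ⊨ Φ) :
    ¬ ComputablePred fun k : ℕ => ∃ σ : Language.ring.Sentence, code σ = k ∧ Φ ⊨ᵇ σ := by
  refine crit2 (Th2 θ) (De2 θ) (up_th θ) (ud_de2 θ) R
    (fun i j e => Nat.cast_injective (R := R) (by simpa using e)) (fun N => ?_) Φ hΦ
  have h1 : Ex O ≤ O := fun x hx => hx.1
  have h2 : Ex O ≤ R := h1.trans hOR
  let _ : CompatibleRing (Ex O) := compatibleRingOfRing _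
  have : Infinite (Ex O) := Infinite.of_injective _ (Nat.cast_injective (R := Ex O))
  obtain ⟨m, p, q, b1, b2⟩ := box allPOS allPH (ex_real hO hc hinf) N (S := Set.univ)
    (by simp) (Or.inr fun x _ => hO x (h1 x.2))
  have i2 := Subring.inclusion_injective h2
  refine ⟨_, b1.image (Subring.inclusion h2), by rwa [Set.ncard_image_of_injective _ i2],
    fun V hV hA T => ?_⟩
  let ι := Subring.inclusion hOR
  obtain ⟨s, t, p', q', r, hd⟩ := dv_code hO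
    (hV.preimage (Subring.inclusion_injective hOR).injOn) fun w x y z => T (ι w) (ι x) (ι y) (ι z)
  let P : Fin n ⊕ Fin 8 → R := Sum.elim a ![Subring.inclusion h2 m, Subring.inclusion h2 p,
    Subring.inclusion h2 q, ι s, ι t, ι p', ι q', ι r]
  have hI : ∀ x : R, It θ R P x ↔ (x : Qb) ∈ O := hθ
  have hJ := mr_iff hOR hI
  refine ⟨P, fun x => ?_, fun w hw x hx y hy z hz => ?_⟩
  · have key : ∀ x : Ex O, Th2 θ R P (Subring.inclusion h2 x) ↔
        Pos (ad (mu m x) (ng p)) ∧ Pos (ad q (ng (mu m x))) := fun x => by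
      rw [← posI_iff h2 hJ, ← posI_iff h2 hJ]
      simp only [Th2, hJ, mu_eq, ad_eq, ng_eq, map_add, map_mul, map_neg]
      exact and_iff_right x.2
    refine ⟨fun h => ⟨⟨x, (hJ x).1 h.1⟩, ⟨trivial, (key _).1 h⟩, rfl⟩, ?_⟩
    rintro ⟨x, hx, rfl⟩
    exact (key x).2 hx.2
  · have hV' : ∀ x ∈ V, ∃ x' : O, ι x' = x := fun x hx => by
      rcases hA hx with ⟨y, -, rfl⟩ | ⟨i, rfl⟩
      · exact ⟨⟨y, h1 y.2⟩, rfl⟩
      · exact ⟨i, by simp⟩
    obtain ⟨w, rfl⟩ := hV' w hw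
    obtain ⟨x, rfl⟩ := hV' x hx
    obtain ⟨y, rfl⟩ := hV' y hy
    obtain ⟨z, rfl⟩ := hV' z hz
    rw [← hd w hw x hx y hy z hz]
    simp only [De2, hI, four, mu_eq, ad_eq]
    constructor
    · rintro ⟨u, u1, u2⟩
      exact ⟨⟨u, u1⟩, Subtype.ext (congrArg Subtype.val u2 :)⟩
    · rintro ⟨u, u2⟩
      exact ⟨ι u, u.2, Subtype.ext (congrArg Subtype.val u2 :)⟩

end Pool.Agent.MP_b4c6b8_lc.H22C
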